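import Pool.Agent.Q138.PS.UR
import Pool.Agent.Results.MP_93d8d2_nt.GeneralizedTowers

/-!
# Generalized towers of height three along `⌊α P(n)⌋`: all or almost none of the values are free

The number of the problem is `√2 ^ (√2 ^ √2) = (n ^ (1 / 2)) ^ (n ^ (√2 / 2))` for `n = 2`; its logarithm is
`(1 / 2) n ^ (√2 / 2) log n`. We consider the functions `F(n) = ∑ n ^ {c_i} B_i(log n)`, `c_1, ..., c_m` distinct complex numbers,
`B_i` complex polynomials of degree `< D`. Let `q ≥ 2` and let any sequence of such functions be given. Outside a set of real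
numbers of Hausdorff dimension at most `q / (q + 1 / (q 2 ^ (q - 1)))` (that is `8 / 9` for `q = 2`) every `α > 0` has the following
property. For each nontrivial `F` of the sequence there is `η > 0` such that for all large `N` and ALL integral polynomials `P` of
degree `q` with positive leading coefficient and coefficients of size at most `N ^ η`, at most `C N (log log N) ^ C / log N` of the
`F(⌊α P(k)⌋)`, `k ≤ N`, are linear forms in `1` and logarithms of algebraic numbers, with algebraic coefficients; `C` depends only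
on `m` and `D`. In particular the numbers `t (b n ^ s) ^ (κ n ^ c)`, `n = ⌊α P(k)⌋` (`t ≠ 0` complex, `c` irrational, `κ ≠ 0`,
`(b, s) ≠ (1, 0)`), are transcendental for all but `C N (log log N) ^ C / log N` of the `k ≤ N`, `C` absolute.
-/

set_option autoImplicit false

namespace Pool.Agent.Results.MP_93d8d2_nt.TowersAlongRealMultiples

open Finset Filter Topology
open Pool.Agent.Q138.PS
open Pool.Agent.Results.MP_93d8d2_nt.GeneralizedTowers (LogForms Prods F Trivial)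

open Classical in
/-- the number of the `1 ≤ k ≤ N` for which `⌊α P(k)⌋` is in `S` -/
noncomputable def count (S : Set ℕ) (α : ℝ) (P : Polynomial ℤ) (N : ℕ) : ℕ :=
  ((Icc 1 N).filter fun k : ℕ => ⌊α * ((P.eval (k : ℤ) : ℤ) : ℝ)⌋₊ ∈ S).card

theorem count_eq (S : Set ℕ) (α : ℝ) (P : Polynomial ℤ) (N : ℕ) : (count S α P N : ℝ) = cnP (fun n => n ∈ S) α P N := by
  classical
  unfold count cnP cn
  refine congrArg _ (congrArg _ ?_)
  ext n
  simp only [mem_filter]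

/-- at most `C N (log log N) ^ C / log N` of the `⌊α P(k)⌋`, `k ≤ N`, are in `S`, uniformly in `P` -/
def Sparse (q C : ℕ) (α : ℝ) (S : Set ℕ) : Prop :=
  ∃ η : ℝ, 0 < η ∧ ∀ᶠ N : ℕ in atTop, ∀ P : Polynomial ℤ, P.natDegree = q → 0 < P.leadingCoeff →
    (∀ j, |((P.coeff j : ℤ) : ℝ)| ≤ (N : ℝ) ^ η) → (count S α P N : ℝ) ≤ C * Real.log (Real.log N) ^ C / Real.log N * N

/-- the general transfer -/
theorem transfer (q : ℕ) (hq : 2 ≤ q) (S : ℕ → Set ℕ) :
    ∃ E : Set ℝ, dimH E ≤ ENNReal.ofReal (q / (q + 1 / ((q : ℝ) * 2 ^ (q - 1)))) ∧ ∀ α : ℝ, 0 < α → α ∉ E →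
      ∀ i C : ℕ, (∀ y : ℕ, 16 ≤ y → cn (fun n => n ∈ S i) y ≤ C * Real.log (Real.log y) ^ C / Real.log y * y) →
      Sparse q (20 * 2 ^ C * (C + 1)) α (S i) := by
  obtain ⟨E, hE, hg⟩ := exc_loglog (ι := ℕ) q hq (fun i n => n ∈ S i)
  refine ⟨E, hE, fun α hα hαE i C hC => ?_⟩
  obtain ⟨η, hη, h1⟩ := hg α hα hαE i
  refine ⟨η, hη, ?_⟩
  have h2 := h1 ((C + 1 : ℕ) : ℝ) C (by positivity) (fun y hy => by
    refine (hC y hy).trans ?_
    have hy16 : (16 : ℝ) ≤ y := by exact_mod_cast hy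
    have hl : 1 ≤ Real.log y := by
      have h2 : Real.log 16 = 4 * Real.log 2 := by
        rw [show (16 : ℝ) = 2 ^ 4 by norm_num, Real.log_pow]
        norm_num
      have h3 := Real.log_two_gt_d9
      have h4 := Real.log_le_log (by norm_num) hy16
      linarith
    have hll : 0 ≤ Real.log (Real.log y) := Real.log_nonneg hl
    have h3 : (C : ℝ) ≤ ((C + 1 : ℕ) : ℝ) := by push_cast; linarith
    gcongr)
  have hlog : Tendsto (fun N : ℕ => Real.log (Real.log N)) atTop atTop :=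
    Real.tendsto_log_atTop.comp (Real.tendsto_log_atTop.comp tendsto_natCast_atTop_atTop)
  filter_upwards [h2, hlog.eventually_ge_atTop 1, eventually_ge_atTop 3] with N hN hll hN3
  intro P hdeg hlead hco
  rw [count_eq]
  refine (hN P hdeg hlead hco).trans ?_
  have hl : 0 < Real.log N := Real.log_pos (by
    have : (3 : ℝ) ≤ N := by exact_mod_cast hN3
    linarith)
  have e1 : (20 : ℝ) * 2 ^ C * ((C + 1 : ℕ) : ℝ) = ((20 * 2 ^ C * (C + 1) : ℕ) : ℝ) := by push_cast; ring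
  rw [e1]
  have h3 : Real.log (Real.log N) ^ C ≤ Real.log (Real.log N) ^ (20 * 2 ^ C * (C + 1)) := by
    refine pow_le_pow_right₀ hll ?_
    have : 1 ≤ 20 * 2 ^ C := by have := Nat.one_le_two_pow (n := C); omega
    calc C ≤ C + 1 := Nat.le_succ _
      _ = 1 * (C + 1) := (one_mul _).symm
      _ ≤ _ := Nat.mul_le_mul_right _ this
  gcongr

/-- **Theorem.** -/
theorem result :
    (∃ C : ℕ → ℕ → ℕ, ∀ q : ℕ, 2 ≤ q → ∀ (m D : ℕ → ℕ) (c : ∀ i, Fin (m i) → ℂ) (B : ∀ i, Fin (m i) → Polynomial ℂ),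
      (∀ i, Function.Injective (c i)) → (∀ i j, (B i j).degree < D i) →
      ∃ E : Set ℝ, dimH E ≤ ENNReal.ofReal (q / (q + 1 / ((q : ℝ) * 2 ^ (q - 1)))) ∧ ∀ α : ℝ, 0 < α → α ∉ E →
      ∀ i, ¬ Trivial (c i) (B i) → Sparse q (C (m i) (D i)) α {n | F (c i) (B i) n ∈ LogForms}) ∧
    (∃ C : ℕ, ∀ q : ℕ, 2 ≤ q → ∀ (t : ℕ → ℂ) (b κ s c : ℕ → ℝ), (∀ i, t i ≠ 0) → (∀ i, 0 < b i) → (∀ i, κ i ≠ 0) →
      (∀ i, b i ≠ 1 ∨ s i ≠ 0) → (∀ i, Irrational (c i)) →
      ∃ E : Set ℝ, dimH E ≤ ENNReal.ofReal (q / (q + 1 / ((q : ℝ) * 2 ^ (q - 1)))) ∧ ∀ α : ℝ, 0 < α → α ∉ E →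
      ∀ i, Sparse q C α {n | t i * (((b i * (n : ℝ) ^ (s i)) ^ (κ i * (n : ℝ) ^ (c i)) : ℝ) : ℂ) ∈ Prods}) ∧
    (∀ x : ℂ, x ≠ 0 → IsAlgebraic ℚ x → x ∈ Prods) ∧
    (∀ z γ δ : ℂ, z ∉ LogForms → IsAlgebraic ℚ γ → IsAlgebraic ℚ δ → δ ≠ 0 →
      Transcendental ℚ (Complex.exp (γ + δ * z))) := by
  classical
  obtain ⟨h1, ⟨C2, h2⟩, h3⟩ := Pool.Agent.Results.MP_93d8d2_nt.GeneralizedTowers.result
  choose C hC using h1
  refine ⟨⟨fun m D => 20 * 2 ^ (C m D) * (C m D + 1), fun q hq m D c B hc hB => ?_⟩,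
    ⟨20 * 2 ^ C2 * (C2 + 1), fun q hq t b κ s c ht hb hκ hbs hc => ?_⟩, fun x hx hxa => ?_, h3⟩
  · obtain ⟨E, hE, hg⟩ := transfer q hq (fun i => {n | F (c i) (B i) n ∈ LogForms})
    refine ⟨E, hE, fun α hα hαE i hi => hg α hα hαE i (C (m i) (D i)) fun y hy => ?_⟩
    refine le_trans (le_of_eq ?_) ((hC (m i) (D i) (c i) (hc i) (B i) (hB i)).2 hi y hy)
    unfold cn
    refine congrArg _ (congrArg _ ?_)
    ext n
    simp only [mem_filter, Set.mem_setOf_eq]
  · obtain ⟨E, hE, hg⟩ := transfer q hq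
      (fun i => {n | t i * (((b i * (n : ℝ) ^ (s i)) ^ (κ i * (n : ℝ) ^ (c i)) : ℝ) : ℂ) ∈ Prods})
    refine ⟨E, hE, fun α hα hαE i => hg α hα hαE i C2 fun y hy => ?_⟩
    refine le_trans (le_of_eq ?_) (h2 (t i) (ht i) (b i) (κ i) (s i) (c i) (hb i) (hκ i) (hbs i) (hc i) y hy)
    unfold cn
    refine congrArg _ (congrArg _ ?_)
    ext n
    simp only [mem_filter, Set.mem_setOf_eq]
  · refine ⟨Complex.log x, Submodule.subset_span (Or.inr ?_), Complex.exp_log hx⟩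
    show IsAlgebraic ℚ (Complex.exp (Complex.log x))
    rwa [Complex.exp_log hx]

end Pool.Agent.Results.MP_93d8d2_nt.TowersAlongRealMultiples
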