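import Pool.Agent.Q138.PS.WX
import Pool.Agent.Q138.AI.R93d8d2

/-!
# Towers `√2 ^ (√2 ^ x)` at all integers `x` of real number fields which are close to a given real number

The number of the problem is `√2 ^ (√2 ^ x)` at the algebraic integer `x = √2`.

(1) There is ONE set `Z` of real numbers of Hausdorff dimension at most `1 / (2 σ)` (`σ > 0`, for example `σ = 1`) such that for every
real number `z` outside `Z`, all `r ≥ 1`, all real algebraic numbers `β_1, …, β_r` such that `1, β_1, …, β_r` are linearly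
independent over `ℚ`, and all `b`: for all but finitely many of the `m ∈ ℤ ^ r` for which there is an integer `a` with

  `|a + m_1 β_1 + ⋯ + m_r β_r - z| ≤ b |m| ^ (-σ r)`,

the numbers `√2 ^ (√2 ^ (q + m_1 β_1 + ⋯ + m_r β_r))` are transcendental for ALL rational numbers `q`, in particular for `q = a`.

If `1, β_1, …, β_r` is a basis of the ring of integers of a real number field `K` of degree `r + 1`, then the `a + ∑ m_i β_i` are the
integers of `K`, and `σ = 1` is the exponent with which they approximate real numbers: there are about `X ^ r` integers of `K` in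
a given interval, all of whose conjugates are at most `X`. For `r = 1` infinitely many `m` satisfy the inequality for every `z` (Minkowski;
`b = 1`). So for real numbers `z` outside a set of Hausdorff dimension `1 / 2`, for example, `√2 ^ (√2 ^ x)` is transcendental for all but finitely many of
the numbers `x = a + m √2` with `|x - z| ≤ 1 / |m|`.

(2) More generally let `l_j ≠ 0` (`j ∈ ℕ`) be logarithms of algebraic numbers, and let `y_j` be `N`-tuples of complex numbers. There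
is one set `Z` of Hausdorff dimension at most `N / ((N + 1) σ)` such that for `z` outside `Z` and all `j`, `r`, `β`, `b` as above, for all
but finitely many `m` as above, all rational `q` and all algebraic numbers `c_t` with `∑ c_t y_{j, t} ≠ 0` the number
`e ^ ((q + ∑ m_i β_i) l_j) ∑ c_t y_{j, t}` is not a linear form in `1` and logarithms of algebraic numbers with algebraic coefficients; so
its exponential is transcendental.

(3) Let `g` be an `r`-tuple of complex numbers no nontrivial monomial in which is algebraic, `y` an `N`-tuple, `Y` a metric space, `p` ANY map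
from `ℤ ^ r` to `Y`, and `τ > 0`. There is a set `Z ⊆ Y` of Hausdorff dimension at most `r N / ((N + 1) τ)` such that for `z ∈ Y`
outside `Z` and all `b`, for all but finitely many `m ∈ ℤ ^ r` with `dist (p m, z) ≤ b |m| ^ (-τ)` none of the numbers
`g ^ m ∑ c_t y_t ≠ 0` with algebraic `c_t` is such a linear form.

The number of exceptional `m` in `[-H, H] ^ r` is at most `C H ^ (r N / (N + 1))` (AlgebraicExponents).
-/

set_option autoImplicit false

namespace Pool.Agent.Results.MP_93d8d2_nt.TowersNearGivenPoints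

open Pool.Agent.Q138.PS Pool.Agent.Q138.AI.R93d8d2

/-- the largest absolute value of a coordinate, or `1` -/
noncomputable def size {r : ℕ} (m : Fin r → ℤ) : ℝ := max 1 ((Finset.univ.sup fun i => (m i).natAbs : ℕ) : ℝ)

/-- the real algebraic numbers `β_1, …, β_r` are linearly independent over `ℚ` modulo `1` -/
def Admissible {r : ℕ} (β : Fin r → ℝ) : Prop :=
  1 ≤ r ∧ (∀ i, IsAlgebraic ℚ (β i)) ∧ LinearIndependent ℚ (Fin.cons 1 β : Fin (r + 1) → ℝ)

/-- the `m` for which `a + ∑ m_i β_i` is close to `z`, for some integer `a` -/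
def Close (σ z b : ℝ) {r : ℕ} (β : Fin r → ℝ) (m : Fin r → ℤ) : Prop :=
  ∃ a : ℤ, |a + ∑ i, m i * β i - z| ≤ b * (size m) ^ (-(σ * r))

/-- For some rational `q` and algebraic `c_t` with `∑ c_t y_t ≠ 0` the number `e ^ ((q + ∑ m_i β_i) l) ∑ c_t y_t` is a linear form in
`1` and logarithms of algebraic numbers with algebraic coefficients. -/
def Exceptional {r N : ℕ} (l : ℂ) (β : Fin r → ℝ) (y : Fin N → ℂ) (m : Fin r → ℤ) : Prop :=
  ∃ (q : ℚ) (c : Fin N → ℂ), (∀ t, Alg (c t)) ∧ ∑ t, c t * y t ≠ 0 ∧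
    LinForm (Complex.exp ((q + ∑ i, m i * (β i : ℂ)) * l) * ∑ t, c t * y t)

theorem cast_li {r : ℕ} {β : Fin r → ℝ} (h : LinearIndependent ℚ (Fin.cons 1 β : Fin (r + 1) → ℝ)) :
    LinearIndependent ℚ (Fin.cons 1 (fun i => ((β i : ℝ) : ℂ)) : Fin (r + 1) → ℂ) := by
  have h1 := h.map' (Complex.ofRealAm.restrictScalars ℚ).toLinearMap
    (LinearMap.ker_eq_bot.2 Complex.ofReal_injective)
  have h2 : (Complex.ofRealAm.restrictScalars ℚ).toLinearMap ∘
      (Fin.cons 1 β : Fin (r + 1) → ℝ) = Fin.cons 1 (fun i => ((β i : ℝ) : ℂ)) := by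
    funext i
    refine Fin.cases ?_ (fun i => ?_) i
    · simp
    · simp
  rwa [h2] at h1

theorem countable_systems : {x : Σ r : ℕ, Fin r → ℝ | ∀ i, IsAlgebraic ℚ (x.2 i)}.Countable := by
  have h1 : {x : Σ r : ℕ, Fin r → ℝ | ∀ i, IsAlgebraic ℚ (x.2 i)} ⊆
      ⋃ r : ℕ, (fun β : Fin r → ℝ => (⟨r, β⟩ : Σ r : ℕ, Fin r → ℝ)) '' {β | ∀ i, β i ∈ {x : ℝ | IsAlgebraic ℚ x}} := by
    rintro ⟨r, β⟩ h
    exact Set.mem_iUnion.2 ⟨r, β, h, rfl⟩
  refine (Set.countable_iUnion fun r => Set.Countable.image ?_ _).mono h1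
  exact Set.countable_pi fun _ => Algebraic.countable ℚ ℝ

theorem near (N : ℕ) (σ : ℝ) (hσ : 0 < σ) (l : ℕ → ℂ) (y : ℕ → Fin N → ℂ) (hl : ∀ j, l j ≠ 0)
    (hal : ∀ j, Alg (Complex.exp (l j))) :
    ∃ Z : Set ℝ, dimH Z ≤ ENNReal.ofReal ((N / (N + 1) : ℝ) / σ) ∧ ∀ z, z ∉ Z → ∀ (j r : ℕ) (β : Fin r → ℝ), Admissible β →
      ∀ b : ℝ, {m | Close σ z b β m ∧ Exceptional (l j) β (y j) m}.Finite := by
  have key : ∀ (j : ℕ) (x : {x : Σ r : ℕ, Fin r → ℝ | ∀ i, IsAlgebraic ℚ (x.2 i)}), ∃ Z : Set ℝ,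
      dimH Z ≤ ENNReal.ofReal ((N / (N + 1) : ℝ) / σ) ∧ ∀ z, z ∉ Z → Admissible x.1.2 →
      ∀ b : ℝ, {m | Close σ z b x.1.2 m ∧ Exceptional (l j) x.1.2 (y j) m}.Finite := by
    rintro j ⟨⟨r, β⟩, hβ⟩
    by_cases hA : Admissible β
    · have hr : (0 : ℝ) < r := by exact_mod_cast hA.1
      obtain ⟨C, hC⟩ := result.2.1 r N
      have h1 := hC (l j) (hl j) (hal j) (fun i => ((β i : ℝ) : ℂ)) (fun i => (hβ i).algebraMap (A := ℂ)) (cast_li hA.2.2)
        (y j)
      obtain ⟨Z, hZ, hz⟩ := fin_lattice β {m | Exceptional (l j) β (y j) m} N C h1 (σ * r) (by positivity)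
      refine ⟨Z, hZ.trans (ENNReal.ofReal_le_ofReal (le_of_eq ?_)), fun z hzZ _ b => (hz z hzZ b).subset ?_⟩
      · field_simp
      · rintro m ⟨h2, h3⟩
        exact ⟨h3, h2⟩
    · exact ⟨∅, by simp, fun z _ h => absurd h hA⟩
  have hc : Countable {x : Σ r : ℕ, Fin r → ℝ | ∀ i, IsAlgebraic ℚ (x.2 i)} := countable_systems.to_subtype
  choose Z hZ hz using key
  refine ⟨⋃ j, ⋃ x, Z j x, ?_, fun z hzZ j r β hβ b => ?_⟩
  · rw [dimH_iUnion]
    refine iSup_le fun j => ?_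
    rw [dimH_iUnion]
    exact iSup_le (hZ j)
  · exact hz j ⟨⟨r, β⟩, hβ.2.1⟩ z (fun h => hzZ (Set.mem_iUnion₂.2 ⟨j, _, h⟩)) hβ b

/-- **Theorem.** -/
theorem result :
    (∀ σ : ℝ, 0 < σ → ∃ Z : Set ℝ, dimH Z ≤ ENNReal.ofReal (1 / (2 * σ)) ∧ ∀ z, z ∉ Z →
      ∀ (r : ℕ) (β : Fin r → ℝ), Admissible β → ∀ b : ℝ, {m | Close σ z b β m ∧
        ∃ q : ℚ, IsAlgebraic ℚ (Real.sqrt 2 ^ (Real.sqrt 2 ^ ((q : ℝ) + ∑ i, m i * β i)))}.Finite) ∧
    (∀ (N : ℕ) (σ : ℝ), 0 < σ → ∀ (l : ℕ → ℂ) (y : ℕ → Fin N → ℂ), (∀ j, l j ≠ 0) → (∀ j, Alg (Complex.exp (l j))) →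
      ∃ Z : Set ℝ, dimH Z ≤ ENNReal.ofReal ((N / (N + 1) : ℝ) / σ) ∧ ∀ z, z ∉ Z → ∀ (j r : ℕ) (β : Fin r → ℝ), Admissible β →
        ∀ b : ℝ, {m | Close σ z b β m ∧ Exceptional (l j) β (y j) m}.Finite) ∧
    (∀ (r N : ℕ) (g : Fin r → ℂ), (∀ i, g i ≠ 0) → (∀ m : Fin r → ℤ, Alg (∏ i, g i ^ m i) → m = 0) →
      ∀ (y : Fin N → ℂ) (Y : Type) [MetricSpace Y] [MeasurableSpace Y] [BorelSpace Y] (p : (Fin r → ℤ) → Y) (τ : ℝ), 0 < τ →
      ∃ Z : Set Y, dimH Z ≤ ENNReal.ofReal ((r * N / (N + 1) : ℝ) / τ) ∧ ∀ z, z ∉ Z → ∀ b : ℝ,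
        {m | dist (p m) z ≤ b * (size m) ^ (-τ) ∧ ∃ c : Fin N → ℂ, (∀ t, Alg (c t)) ∧ ∑ t, c t * y t ≠ 0 ∧
          LinForm ((∏ i, g i ^ m i) * ∑ t, c t * y t)}.Finite) := by
  refine ⟨fun σ hσ => ?_, fun N σ hσ l y hl hal => near N σ hσ l y hl hal, fun r N g hg hg1 y Y _ _ _ p τ hτ => ?_⟩
  · have hlog : (0 : ℝ) < Real.log (Real.sqrt 2) := by
      refine Real.log_pos ?_
      rw [Real.lt_sqrt (by norm_num)]
      norm_num
    have hl : ((Real.log (Real.sqrt 2) : ℝ) : ℂ) ≠ 0 := by exact_mod_cast hlog.ne'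
    have hal : Alg (Complex.exp ((Real.log (Real.sqrt 2) : ℝ) : ℂ)) := by
      have h := sqrt_two_pow 1
      rw [Real.rpow_one, Complex.ofReal_one, one_mul] at h
      rw [← h]
      have h2 : IsAlgebraic ℚ (((Real.sqrt 2 : ℝ) : ℂ) ^ 2) := by
        rw [← Complex.ofReal_pow, Real.sq_sqrt (by norm_num)]
        exact_mod_cast isAlgebraic_natCast (R := ℚ) (A := ℂ) 2
      exact h2.of_pow (by norm_num)
    obtain ⟨Z, hZ, hz⟩ := near 1 σ hσ (fun _ => ((Real.log (Real.sqrt 2) : ℝ) : ℂ))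
      (fun _ _ => ((Real.log (Real.sqrt 2) : ℝ) : ℂ)) (fun _ => hl) (fun _ => hal)
    refine ⟨Z, hZ.trans (ENNReal.ofReal_le_ofReal (le_of_eq ?_)), fun z hzZ r β hβ b => (hz z hzZ 0 r β hβ b).subset ?_⟩
    · push_cast
      field_simp
      norm_num
    · rintro m ⟨h1, q, hq⟩
      refine ⟨h1, q, fun _ => 1, fun _ => isAlgebraic_one, ?_, ?_⟩
      · rw [Fin.sum_univ_one, one_mul]
        exact hl
      · rw [Fin.sum_univ_one, one_mul]
        have h2 : Alg ((Real.sqrt 2 ^ (Real.sqrt 2 ^ ((q : ℝ) + ∑ i, m i * β i)) : ℝ) : ℂ) := hq.algebraMap (A := ℂ)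
        rw [sqrt_two_pow, sqrt_two_pow] at h2
        push_cast at h2
        exact linForm_of_exp h2
  · obtain ⟨C, hC⟩ := Pool.Agent.Q138.AI.R93d8d2.result.1 r N
    obtain ⟨Z, hZ, hz⟩ := fin_int p {m | ∃ c : Fin N → ℂ, (∀ t, Alg (c t)) ∧ ∑ t, c t * y t ≠ 0 ∧
      LinForm ((∏ i, g i ^ m i) * ∑ t, c t * y t)} N C (hC g hg hg1 y) τ hτ
    refine ⟨Z, hZ, fun z hzZ b => (hz z hzZ b).subset ?_⟩
    rintro m ⟨h1, h2⟩
    exact ⟨h2, h1⟩

end Pool.Agent.Results.MP_93d8d2_nt.TowersNearGivenPoints
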