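import Pool.Agent.Q147.TG.Tower

/-!
# Towers `a ^ (α ^ β)` whose top is a member of a number field

The number of the problem is `√2 ^ (√2 ^ β)` for `β = √2`.  We fix an algebraic number `α = e ^ l`,
`l ≠ 0`, and a complex number `s ≠ 0`, and let `β` run through a number field `K` of degree `d`.  By a
linear form we mean a linear form in `1` and logarithms of algebraic numbers, with algebraic
coefficients (for instance every number whose exponential is algebraic).

(1) For every irrational algebraic number `δ`, in `K` or not, the `β` in `K` for which both `s α ^ β`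
and `s α ^ (β + δ)` are linear forms lie in at most `d` classes modulo `ℚ`.

(2) If `F` is a finite subset of `K`, and `B` consists of members `β` of `F`, pairwise different modulo
`ℚ`, for which `s α ^ β` is a linear form, then `|B| (|B| - 1) ≤ d |F - F|`.

So in every finite subset `F` of `K` with small difference set at most about the square root of the
members `β` modulo `ℚ` have an algebraic number `e ^ (s α ^ β)`; with `α = √2`, `s = log √2` these are
the towers `√2 ^ (√2 ^ β)` of the problem.  The bound does not depend on `α`, `s` and `δ`.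

The proof.  If `k` is algebraically closed in `Ω` and `Γ ⊂ Ω ˣ` has rank `r` modulo `k ˣ`, then `Γ` meets
every `k`-space of dimension `2` in at most `r + 1` classes modulo `k ˣ` (places of `Ω` over `k`).  The
numbers `α ^ β`, `β` in `K`, form a group of rank at most `d - 1` modulo the algebraic numbers, and by
the theorem of Roy (strong six exponentials) the `y` for which `y` and `α ^ δ y` are linear forms are a
space of dimension at most two.
-/

set_option autoImplicit false

namespace Pool.Agent.Results.MP_93d8d2_nt.TowersOverNumberFields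

open Module
open Pool.Agent.Q147.TG
open Pool.Agent.Y787 (QC mem_QC)
open Pool.Agent.H301R2.SSE (Lt Lt_log Lt_alg Lt_mul)

/-- algebraic over the rational numbers -/
abbrev Alg (z : ℂ) : Prop := IsAlgebraic ℚ z

/-- `z = γ + β₁ l₁ + … + β_n l_n` with `γ`, the `β_i` and the exponentials of the `l_i` algebraic:
`z` is a linear form in `1` and logarithms of algebraic numbers, with algebraic coefficients -/
def LinForm (z : ℂ) : Prop := ∃ (n : ℕ) (γ : ℂ) (β l : Fin n → ℂ), Alg γ ∧ (∀ i, Alg (β i)) ∧
  (∀ i, Alg (Complex.exp (l i))) ∧ z = γ + ∑ i, β i * l i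

/-- pairwise different modulo the rational numbers -/
def Incongruent (B : Finset ℂ) : Prop := ∀ β ∈ B, ∀ β' ∈ B, ∀ q : ℚ, β - β' = q → β = β'

theorem LinForm.mem {z : ℂ} (h : LinForm z) : z ∈ Lt := by
  obtain ⟨m, γ, β, l, hγ, hβ, hl, rfl⟩ := h
  exact Lt.add_mem (Lt_alg hγ) (Submodule.sum_mem _ fun i _ => Lt_mul (hβ i) (Lt_log (hl i)))

/-- **Main result.** -/
theorem result (K : IntermediateField ℚ ℂ) [FiniteDimensional ℚ K] (l : ℂ) (hl : l ≠ 0)
    (hal : Alg (Complex.exp l)) (s : ℂ) (hs : s ≠ 0) :
    -- (1) two values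
    (∀ δ : ℂ, Alg δ → (∀ q : ℚ, δ ≠ q) → ∀ B : Finset ℂ, Incongruent B →
      (∀ β ∈ B, β ∈ K ∧ LinForm (s * Complex.exp (β * l)) ∧
        LinForm (s * Complex.exp ((β + δ) * l))) → B.card ≤ finrank ℚ K) ∧
    -- (2) finite subsets of the number field
    ∀ F B : Finset ℂ, B ⊆ F → (∀ β ∈ F, β ∈ K) → Incongruent B →
      (∀ β ∈ B, LinForm (s * Complex.exp (β * l))) →
      B.card * (B.card - 1) ≤ finrank ℚ K * ((F ×ˢ F).image (fun p => p.2 - p.1)).card := by
  refine ⟨fun δ hδ hδq B hinc hB => ?_, fun F B hBF hFK hinc hB => ?_⟩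
  · exact card_pair K hl hal hs hδ hδq B (fun β hβ => (hB β hβ).1)
      (fun β hβ => ⟨(hB β hβ).2.1.mem, (hB β hβ).2.2.mem⟩) hinc
  · exact card_field K hl hal hs F B hBF hFK (fun β hβ => (hB β hβ).mem) hinc

end Pool.Agent.Results.MP_93d8d2_nt.TowersOverNumberFields
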